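import Mathlib
import Pool.Agent.W964.Wd.SumDist

/-!
Random sorted lists of distinct integers with and without a planted solution of `a + b + c = 0`.
-/

set_option autoImplicit false
set_option linter.unusedSectionVars false

namespace Pool.Agent.K9h76.WZ

open Finset H568R2 H592R3 Pool.Agent.W964.Pram Pool.Agent.W964.Wd

/-- An instance of integer 3SUM: a strictly increasing list of `n` integers from `-n ^ 4` to
`n ^ 4`. -/
def ZInst (n : ℕ) (x : Fin n → ℤ) : Prop := StrictMono x ∧ ∀ i, |x i| ≤ (n : ℤ) ^ 4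

/-- There are three distinct indices `i, j, k` with `x i + x j + x k = 0`. -/
def ZYes {n : ℕ} (x : Fin n → ℤ) : Prop :=
  ∃ i j k, i ≠ j ∧ i ≠ k ∧ j ≠ k ∧ x i + x j + x k = 0

/-- The number of negative entries. -/
def cut (n : ℕ) : ℕ := n - 2 * (n / 4)

/-- The list with the offsets `Z`. -/
def zarr {n N : ℕ} (Z : Fin n → Fin N) : Fin n → ℤ := fun j =>
  if j.val < cut n then
    -(2 * (N * n : ℤ) + (N : ℤ) * ((n : ℤ) - 1 - j.val - ((n / 4 : ℕ) : ℤ)) + (Z j).val)
  else (N * n : ℤ) + (N : ℤ) * ((j.val : ℤ) - ((cut n : ℕ) : ℤ)) + (Z j).val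

lemma zarr_neg {n N : ℕ} (Z : Fin n → Fin N) (j : Fin n) (h : j.val < cut n) : zarr Z j =
    -(2 * (N * n : ℤ) + (N : ℤ) * ((n : ℤ) - 1 - j.val - ((n / 4 : ℕ) : ℤ)) + (Z j).val) :=
  if_pos h

lemma zarr_pos {n N : ℕ} (Z : Fin n → Fin N) (j : Fin n) (h : ¬ j.val < cut n) : zarr Z j =
    (N * n : ℤ) + (N : ℤ) * ((j.val : ℤ) - ((cut n : ℕ) : ℤ)) + (Z j).val :=
  if_neg h

lemma zarr_blk {n N : ℕ} : Blk (zarr (n := n) (N := N)) := by
  intro j
  exact ⟨j, fun Y Y' h => by unfold zarr; rw [h]⟩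

lemma cut_cast (n : ℕ) : ((cut n : ℕ) : ℤ) = (n : ℤ) - 2 * ((n / 4 : ℕ) : ℤ) := by
  unfold cut
  omega

/-- bounds of a negative entry -/
lemma neg_bounds {n N : ℕ} (Z : Fin n → Fin N) (j : Fin n) (h : j.val < cut n) :
    zarr Z j ≤ -(2 * (N * n : ℤ)) ∧ -(3 * (N * n : ℤ)) ≤ zarr Z j := by
  rw [zarr_neg Z j h]
  have h1 : ((Z j).val : ℤ) + 1 ≤ N := by exact_mod_cast (Z j).isLt
  have h2 : (0 : ℤ) ≤ (Z j).val := by positivity
  have h3 : (0 : ℤ) ≤ (n : ℤ) - 1 - j.val - ((n / 4 : ℕ) : ℤ) := by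
    unfold cut at h
    have := j.isLt
    omega
  have h4 : (n : ℤ) - 1 - j.val - ((n / 4 : ℕ) : ℤ) + 1 ≤ n := by
    have := j.isLt
    omega
  have h0 : (0 : ℤ) ≤ N := by positivity
  constructor
  · have := mul_nonneg h0 h3
    linarith
  · have := mul_le_mul_of_nonneg_left h4 h0
    nlinarith

/-- bounds of a positive entry -/
lemma pos_bounds {n N : ℕ} (Z : Fin n → Fin N) (j : Fin n) (h : ¬ j.val < cut n) :
    (N * n : ℤ) ≤ zarr Z j ∧ 2 * zarr Z j < 4 * (N * n : ℤ) := by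
  rw [zarr_pos Z j h]
  have h1 : ((Z j).val : ℤ) + 1 ≤ N := by exact_mod_cast (Z j).isLt
  have h2 : (0 : ℤ) ≤ (Z j).val := by positivity
  have h3 : (0 : ℤ) ≤ (j.val : ℤ) - ((cut n : ℕ) : ℤ) := by
    have : cut n ≤ j.val := not_lt.mp h
    omega
  have hj := j.isLt
  have h4 : (j.val : ℤ) - ((cut n : ℕ) : ℤ) + 1 ≤ n := by
    have : (0 : ℤ) ≤ ((cut n : ℕ) : ℤ) := by positivity
    omega
  have h0 : (0 : ℤ) ≤ N := by positivity
  constructor
  · have := mul_nonneg h0 h3
    linarith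
  · have := mul_le_mul_of_nonneg_left h4 h0
    nlinarith

lemma zarr_mono {n N : ℕ} (Z : Fin n → Fin N) : StrictMono (zarr Z) := by
  intro i j hij
  have hij' : (i.val : ℤ) + 1 ≤ j.val := by exact_mod_cast hij
  have h1 : ((Z i).val : ℤ) + 1 ≤ N := by exact_mod_cast (Z i).isLt
  have h2 : ((Z j).val : ℤ) + 1 ≤ N := by exact_mod_cast (Z j).isLt
  have h3 : (0 : ℤ) ≤ (Z i).val := by positivity
  have h4 : (0 : ℤ) ≤ (Z j).val := by positivity
  have h0 : (0 : ℤ) < N := by linarith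
  have hn : (0 : ℤ) < n := by have := i.isLt; omega
  have hNn : (0 : ℤ) < (N * n : ℤ) := mul_pos h0 hn
  by_cases hi : i.val < cut n
  · by_cases hj : j.val < cut n
    · rw [zarr_neg Z i hi, zarr_neg Z j hj]
      nlinarith
    · have b1 := (neg_bounds Z i hi).1
      have b2 := (pos_bounds Z j hj).1
      linarith
  · have hj : ¬ j.val < cut n := by
      have : i.val < j.val := hij
      omega
    rw [zarr_pos Z i hi, zarr_pos Z j hj]
    nlinarith

lemma zarr_inst {n : ℕ} (hn : 3 ≤ n) (Z : Fin n → Fin (n ^ 2)) : ZInst n (zarr Z) := by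
  refine ⟨zarr_mono Z, fun i => ?_⟩
  have e : (((n ^ 2 : ℕ) : ℤ) * n : ℤ) = (n : ℤ) ^ 3 := by push_cast; ring
  have hn' : (3 : ℤ) ≤ n := by exact_mod_cast hn
  have h3 : 3 * (n : ℤ) ^ 3 ≤ (n : ℤ) ^ 4 := by
    have : (n : ℤ) ^ 4 = n * (n : ℤ) ^ 3 := by ring
    rw [this]
    exact mul_le_mul_of_nonneg_right hn' (by positivity)
  have h0 : (0 : ℤ) ≤ (n : ℤ) ^ 3 := by positivity
  rw [abs_le]
  by_cases hi : i.val < cut n
  · obtain ⟨b1, b2⟩ := neg_bounds Z i hi
    rw [e] at b1 b2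
    constructor <;> linarith
  · obtain ⟨b1, b2⟩ := pos_bounds Z i hi
    rw [e] at b1 b2
    constructor <;> linarith

/-- The positions of a planted triple. -/
def vpos {n : ℕ} (κ : Fin (n / 4) × Fin (n / 4)) : Fin 3 → Fin n :=
  ![⟨cut n + κ.1.val, by have := κ.1.isLt; unfold cut; omega⟩,
    ⟨cut n + n / 4 + κ.2.val, by have := κ.2.isLt; unfold cut; omega⟩,
    ⟨n - 1 - 2 * (n / 4) - κ.1.val - κ.2.val, by have := κ.1.isLt; omega⟩]

lemma vpos_0 {n : ℕ} (κ : Fin (n / 4) × Fin (n / 4)) : (vpos κ 0).val = cut n + κ.1.val := rfl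

lemma vpos_1 {n : ℕ} (κ : Fin (n / 4) × Fin (n / 4)) :
    (vpos κ 1).val = cut n + n / 4 + κ.2.val := rfl

lemma vpos_2 {n : ℕ} (κ : Fin (n / 4) × Fin (n / 4)) :
    (vpos κ 2).val = n - 1 - 2 * (n / 4) - κ.1.val - κ.2.val := rfl

lemma vpos_inj {n : ℕ} (κ : Fin (n / 4) × Fin (n / 4)) : Function.Injective (vpos κ) := by
  have h0 := vpos_0 κ
  have h1 := vpos_1 κ
  have h2 := vpos_2 κ
  have ha := κ.1.isLt
  have hb := κ.2.isLt
  have hc : cut n = n - 2 * (n / 4) := rfl
  intro a b hab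
  have hv : (vpos κ a).val = (vpos κ b).val := by rw [hab]
  fin_cases a <;> fin_cases b <;> first | rfl | (exfalso; revert hv; simp; omega)

open Classical in
lemma vpos_count {n : ℕ} (H : Finset (Fin 3)) (V : Finset (Fin n)) (hH1 : 1 ≤ H.card)
    (hH2 : H.card ≤ 2 * (2 - 1)) :
    (univ.filter (fun κ : Fin (n / 4) × Fin (n / 4) => H.image (vpos κ) = V)).card ≤
      B3 n H.card := by
  have hcn : cut n = n - 2 * (n / 4) := rfl
  have hcases : H = {0} ∨ H = {1} ∨ H = {2} ∨ H = {0, 1} ∨ H = {0, 2} ∨ H = {1, 2} := by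
    revert H
    decide
  have hone : ∀ f : Fin (n / 4) × Fin (n / 4) → Fin (n / 4),
      (∀ κ κ' : Fin (n / 4) × Fin (n / 4), H.image (vpos κ) = V → H.image (vpos κ') = V →
        f κ = f κ' → κ = κ') →
      (univ.filter (fun κ : Fin (n / 4) × Fin (n / 4) => H.image (vpos κ) = V)).card ≤ n / 4 := by
    intro f hf
    have h1 := Finset.card_le_card_of_injOn (s := univ.filter
      (fun κ : Fin (n / 4) × Fin (n / 4) => H.image (vpos κ) = V)) (t := univ) f
      (fun κ _ => Finset.mem_coe.2 (Finset.mem_univ _)) (by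
        intro κ hκ κ' hκ' h
        exact hf κ κ' (Finset.mem_filter.1 (Finset.mem_coe.1 hκ)).2
          (Finset.mem_filter.1 (Finset.mem_coe.1 hκ')).2 h)
    rwa [Finset.card_univ, Fintype.card_fin] at h1
  have htwo : (∀ κ κ' : Fin (n / 4) × Fin (n / 4), H.image (vpos κ) = V →
      H.image (vpos κ') = V → κ = κ') →
      (univ.filter (fun κ : Fin (n / 4) × Fin (n / 4) => H.image (vpos κ) = V)).card ≤ 1 := by
    intro hf
    rw [Finset.card_le_one]
    intro κ hκ κ' hκ'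
    exact hf κ κ' (Finset.mem_filter.1 hκ).2 (Finset.mem_filter.1 hκ').2
  have hext : ∀ κ κ' : Fin (n / 4) × Fin (n / 4), κ.1.val = κ'.1.val → κ.2.val = κ'.2.val →
      κ = κ' := by
    intro κ κ' h1 h2
    exact Prod.ext (Fin.ext h1) (Fin.ext h2)
  have hpos : ∀ κ : Fin (n / 4) × Fin (n / 4),
      κ.1.val + 1 ≤ n / 4 ∧ κ.2.val + 1 ≤ n / 4 ∧ 4 * (n / 4) ≤ n := by
    intro κ
    have h1 := κ.1.isLt
    have h2 := κ.2.isLt
    omega
  rcases hcases with rfl | rfl | rfl | rfl | rfl | rfl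
  · refine (hone (fun κ => κ.2) ?_).trans (le_of_eq (by simp [B3]))
    intro κ κ' h h' he
    rw [Finset.image_singleton] at h h'
    have h2 := Finset.singleton_injective (h.trans h'.symm)
    have h3 := congrArg Fin.val h2
    rw [vpos_0, vpos_0] at h3
    exact hext κ κ' (by omega) (congrArg Fin.val he)
  · refine (hone (fun κ => κ.1) ?_).trans (le_of_eq (by simp [B3]))
    intro κ κ' h h' he
    rw [Finset.image_singleton] at h h'
    have h2 := Finset.singleton_injective (h.trans h'.symm)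
    have h3 := congrArg Fin.val h2
    rw [vpos_1, vpos_1] at h3
    exact hext κ κ' (congrArg Fin.val he) (by omega)
  · refine (hone (fun κ => κ.1) ?_).trans (le_of_eq (by simp [B3]))
    intro κ κ' h h' he
    rw [Finset.image_singleton] at h h'
    have h2 := Finset.singleton_injective (h.trans h'.symm)
    have h3 := congrArg Fin.val h2
    have h4 := congrArg Fin.val he
    rw [vpos_2, vpos_2] at h3
    have := hpos κ
    have := hpos κ'
    exact hext κ κ' h4 (by omega)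
  · refine (htwo ?_).trans (le_of_eq (by simp [B3]))
    intro κ κ' h h'
    rw [Finset.image_insert, Finset.image_singleton] at h h'
    obtain ⟨h1, h2, h3, h4⟩ := pair_eq (h.trans h'.symm)
    simp only [Fin.ext_iff, vpos_0, vpos_1] at h1 h2 h3 h4
    have := κ.1.isLt
    have := κ'.1.isLt
    exact hext κ κ' (by omega) (by omega)
  · refine (htwo ?_).trans (le_of_eq (by simp [B3]))
    intro κ κ' h h'
    rw [Finset.image_insert, Finset.image_singleton] at h h'
    obtain ⟨h1, h2, h3, h4⟩ := pair_eq (h.trans h'.symm)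
    simp only [Fin.ext_iff, vpos_0, vpos_2] at h1 h2 h3 h4
    have := hpos κ
    have := hpos κ'
    exact hext κ κ' (by omega) (by omega)
  · refine (htwo ?_).trans (le_of_eq (by simp [B3]))
    intro κ κ' h h'
    rw [Finset.image_insert, Finset.image_singleton] at h h'
    obtain ⟨h1, h2, h3, h4⟩ := pair_eq (h.trans h'.symm)
    simp only [Fin.ext_iff, vpos_1, vpos_2] at h1 h2 h3 h4
    have := hpos κ
    have := hpos κ'
    exact hext κ κ' (by omega) (by omega)

/-- The planted list has a solution. -/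
lemma planted_yes {n N : ℕ} [NeZero N] (κ : Fin (n / 4) × Fin (n / 4)) (Z : Fin n → Fin N)
    (p : Fin N × Fin N) (hp : p ∈ noOver N) :
    ZYes (zarr (Function.extend (vpos κ) ![p.1, p.2, p.1 + p.2] Z)) := by
  have hp' : p.1.val + p.2.val < N := (Finset.mem_filter.1 hp).2
  have hinj := vpos_inj κ
  refine ⟨vpos κ 0, vpos κ 1, vpos κ 2, fun h => ?_, fun h => ?_, fun h => ?_, ?_⟩
  · have := hinj h
    revert this
    decide
  · have := hinj h
    revert this
    decide
  · have := hinj h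
    revert this
    decide
  · have ha := κ.1.isLt
    have hb := κ.2.isLt
    have hc : cut n = n - 2 * (n / 4) := rfl
    have e0 : zarr (Function.extend (vpos κ) ![p.1, p.2, p.1 + p.2] Z) (vpos κ 0) =
        (N * n : ℤ) + (N : ℤ) * (κ.1.val : ℤ) + (p.1.val : ℤ) := by
      rw [zarr_pos _ _ (by rw [vpos_0]; omega), hinj.extend_apply, vpos_0]
      push_cast
      simp
    have e1 : zarr (Function.extend (vpos κ) ![p.1, p.2, p.1 + p.2] Z) (vpos κ 1) =
        (N * n : ℤ) + (N : ℤ) * (((n / 4 : ℕ) : ℤ) + κ.2.val) + (p.2.val : ℤ) := by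
      rw [zarr_pos _ _ (by rw [vpos_1]; omega), hinj.extend_apply, vpos_1]
      have : (((cut n + n / 4 + κ.2.val : ℕ) : ℤ) - ((cut n : ℕ) : ℤ)) =
          ((n / 4 : ℕ) : ℤ) + κ.2.val := by
        push_cast
        ring
      rw [this]
      rfl
    have e2 : zarr (Function.extend (vpos κ) ![p.1, p.2, p.1 + p.2] Z) (vpos κ 2) =
        -(2 * (N * n : ℤ) + (N : ℤ) * (((n / 4 : ℕ) : ℤ) + κ.1.val + κ.2.val) +
          ((p.1 + p.2 : Fin N).val : ℤ)) := by
      rw [zarr_neg _ _ (by rw [vpos_2]; omega), hinj.extend_apply, vpos_2]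
      have : ((n : ℤ) - 1 - ((n - 1 - 2 * (n / 4) - κ.1.val - κ.2.val : ℕ) : ℤ) -
          ((n / 4 : ℕ) : ℤ)) = ((n / 4 : ℕ) : ℤ) + κ.1.val + κ.2.val := by
        omega
      rw [this]
      rfl
    rw [e0, e1, e2, Fin.val_add_eq_of_add_lt hp']
    push_cast
    ring

open Classical in
/-- The probability of a given equation. -/
lemma zeq_prob {n N : ℕ} (hN : 1 ≤ N) (i j k : Fin n) :
    Ex (fun _ : Fin N => 1 / (N : ℝ)) (fun Z : Fin n → Fin N =>
      if (¬ i.val < cut n ∧ ¬ j.val < cut n ∧ k.val < cut n ∧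
        zarr Z i + zarr Z j + zarr Z k = 0) then (1 : ℝ) else 0) ≤
    Ex (fun _ : Fin N => 1 / (N : ℝ)) (fun Z : Fin n → Fin N =>
      (1 / (N : ℝ)) * (if (zarr Z i + zarr Z j - 2 * (N * n : ℤ)) / (N : ℤ) =
        (n : ℤ) - 1 - k.val - ((n / 4 : ℕ) : ℤ) then (1 : ℝ) else 0)) := by
  have hNR : (0 : ℝ) < N := by exact_mod_cast hN
  have hl : ∀ a : Fin N, (0 : ℝ) ≤ (fun _ : Fin N => 1 / (N : ℝ)) a := fun _ => by positivity
  have hl1 : ∑ _a : Fin N, (1 / (N : ℝ)) = 1 := by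
    rw [Finset.sum_const, Finset.card_univ, Fintype.card_fin, nsmul_eq_mul]
    field_simp
  rw [Ex_resample hl1 _ k]
  apply Ex_mono hl
  intro Z
  rw [← Finset.mul_sum]
  apply mul_le_mul_of_nonneg_left _ (by positivity)
  by_cases hc : ¬ i.val < cut n ∧ ¬ j.val < cut n ∧ k.val < cut n
  · obtain ⟨h1, h2, h3⟩ := hc
    have hik : i ≠ k := by rintro rfl; exact h1 h3
    have hjk : j ≠ k := by rintro rfl; exact h2 h3
    have e1 : ∀ a : Fin N, zarr (Function.update Z k a) i = zarr Z i := by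
      intro a
      rw [zarr_pos _ _ h1, zarr_pos _ _ h1, Function.update_of_ne hik]
    have e2 : ∀ a : Fin N, zarr (Function.update Z k a) j = zarr Z j := by
      intro a
      rw [zarr_pos _ _ h2, zarr_pos _ _ h2, Function.update_of_ne hjk]
    have e3 : ∀ a : Fin N, zarr (Function.update Z k a) k =
        -(2 * (N * n : ℤ) + (N : ℤ) * ((n : ℤ) - 1 - k.val - ((n / 4 : ℕ) : ℤ)) + a.val) := by
      intro a
      rw [zarr_neg _ _ h3, Function.update_self]
    simp only [e1, e2, e3]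
    rw [Finset.sum_boole]
    by_cases hs : (zarr Z i + zarr Z j - 2 * (N * n : ℤ)) / (N : ℤ) =
        (n : ℤ) - 1 - k.val - ((n / 4 : ℕ) : ℤ)
    · rw [if_pos hs]
      have : (univ.filter (fun a : Fin N => ¬ i.val < cut n ∧ ¬ j.val < cut n ∧ k.val < cut n ∧
          zarr Z i + zarr Z j + -(2 * (N * n : ℤ) + (N : ℤ) * ((n : ℤ) - 1 - k.val -
            ((n / 4 : ℕ) : ℤ)) + a.val) = 0)).card ≤ 1 := by
        rw [Finset.card_le_one]
        intro a ha b hb
        have ha' := (Finset.mem_filter.1 ha).2.2.2.2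
        have hb' := (Finset.mem_filter.1 hb).2.2.2.2
        apply Fin.ext
        have : (a.val : ℤ) = b.val := by linarith
        exact_mod_cast this
      exact_mod_cast this
    · rw [if_neg hs]
      have : univ.filter (fun a : Fin N => ¬ i.val < cut n ∧ ¬ j.val < cut n ∧ k.val < cut n ∧
          zarr Z i + zarr Z j + -(2 * (N * n : ℤ) + (N : ℤ) * ((n : ℤ) - 1 - k.val -
            ((n / 4 : ℕ) : ℤ)) + a.val) = 0) = ∅ := by
        rw [Finset.filter_eq_empty_iff]
        rintro a _ ⟨_, _, _, h4⟩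
        apply hs
        have h6 : zarr Z i + zarr Z j - 2 * (N * n : ℤ) =
            (N : ℤ) * ((n : ℤ) - 1 - k.val - ((n / 4 : ℕ) : ℤ)) + a.val := by linarith
        rw [h6]
        have h5 : (0 : ℤ) < N := by exact_mod_cast hN
        rw [Int.mul_add_ediv_left _ _ h5.ne', Int.ediv_eq_zero_of_lt (by positivity)
          (by exact_mod_cast a.isLt), add_zero]
      rw [this]
      simp
  · have : ∀ a : Fin N, ¬ (¬ i.val < cut n ∧ ¬ j.val < cut n ∧ k.val < cut n ∧
        zarr (Function.update Z k a) i + zarr (Function.update Z k a) j +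
          zarr (Function.update Z k a) k = 0) :=
      fun a h => hc ⟨h.1, h.2.1, h.2.2.1⟩
    simp only [this, if_false, Finset.sum_const_zero]
    split_ifs <;> norm_num

/-- In a solution two entries are positive and one is negative. -/
lemma zyes_pattern {n N : ℕ} (hN : 1 ≤ N) {Z : Fin n → Fin N} (h : ZYes (zarr Z)) :
    ∃ i j k : Fin n, i ≠ j ∧ ¬ i.val < cut n ∧ ¬ j.val < cut n ∧ k.val < cut n ∧
      zarr Z i + zarr Z j + zarr Z k = 0 := by
  obtain ⟨i, j, k, hij, hik, hjk, hs⟩ := h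
  have hn : (0 : ℤ) < n := by have := i.isLt; omega
  have hN' : (0 : ℤ) < N := by exact_mod_cast hN
  have hNn : (0 : ℤ) < (N * n : ℤ) := mul_pos hN' hn
  have hneg := fun a (h : a.val < cut n) => neg_bounds Z a h
  have hpos := fun a (h : ¬ a.val < cut n) => pos_bounds Z a h
  by_cases hi : i.val < cut n <;> by_cases hj : j.val < cut n <;> by_cases hk : k.val < cut n
  · have := hneg i hi; have := hneg j hj; have := hneg k hk; exfalso; linarith
  · have := hneg i hi; have := hneg j hj; have := hpos k hk; exfalso; linarith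
  · have := hneg i hi; have := hpos j hj; have := hneg k hk; exfalso; linarith
  · exact ⟨j, k, i, hjk, hj, hk, hi, by linarith⟩
  · have := hpos i hi; have := hneg j hj; have := hneg k hk; exfalso; linarith
  · exact ⟨i, k, j, hik, hi, hk, hj, by linarith⟩
  · exact ⟨i, j, k, hij, hi, hj, hk, hs⟩
  · have := hpos i hi; have := hpos j hj; have := hpos k hk; exfalso; linarith

open Classical in
/-- Random lists have no solution with probability at least one half. -/
lemma zyes_prob {n : ℕ} (hn : 1 ≤ n) :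
    Ex (fun _ : Fin (n ^ 2) => 1 / ((n ^ 2 : ℕ) : ℝ)) (fun Z : Fin n → Fin (n ^ 2) =>
      if ZYes (zarr Z) then (1 : ℝ) else 0) ≤ 1 / 2 := by
  obtain ⟨N, hN⟩ : ∃ N, N = n ^ 2 := ⟨_, rfl⟩
  have hN1 : 1 ≤ N := by rw [hN]; exact Nat.one_le_pow _ _ hn
  rw [← hN]
  have hNR : (0 : ℝ) < N := by exact_mod_cast hN1
  have hl : ∀ a : Fin N, (0 : ℝ) ≤ (fun _ : Fin N => 1 / (N : ℝ)) a := fun _ => by positivity
  have hl1 : ∑ _a : Fin N, (1 / (N : ℝ)) = 1 := by
    rw [Finset.sum_const, Finset.card_univ, Fintype.card_fin, nsmul_eq_mul]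
    field_simp
  obtain ⟨e, he⟩ : ∃ e : Fin n → Fin n → Fin n → (Fin n → Fin N) → ℝ, e = fun i j k Z =>
      if (¬ i.val < cut n ∧ ¬ j.val < cut n ∧ k.val < cut n ∧
        zarr Z i + zarr Z j + zarr Z k = 0) then (1 : ℝ) else 0 := ⟨_, rfl⟩
  have he0 : ∀ i j k Z, 0 ≤ e i j k Z := by
    intro i j k Z; rw [he]; dsimp only; split_ifs <;> norm_num
  have hpt : ∀ Z : Fin n → Fin N, (if ZYes (zarr Z) then (1 : ℝ) else 0) ≤
      (1 / 2) * ∑ p : Fin n × Fin n, ∑ k, e p.1 p.2 k Z := by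
    intro Z
    have hf0 : ∀ p : Fin n × Fin n, 0 ≤ ∑ k, e p.1 p.2 k Z :=
      fun p => Finset.sum_nonneg fun k _ => he0 _ _ _ _
    by_cases hy : ZYes (zarr Z)
    · rw [if_pos hy]
      obtain ⟨i, j, k, h1, h2, h3, h4, h5⟩ := zyes_pattern hN1 hy
      have hne : (i, j) ≠ (j, i) := by
        intro h
        exact h1 (Prod.mk.inj h).1
      have h5' := Finset.sum_le_sum_of_subset_of_nonneg
        (Finset.subset_univ ({(i, j), (j, i)} : Finset (Fin n × Fin n)))
        (fun p _ _ => hf0 p)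
      rw [Finset.sum_pair hne] at h5'
      have h6 : (1 : ℝ) ≤ ∑ k, e i j k Z := by
        refine le_trans ?_ (Finset.single_le_sum (fun k _ => he0 i j k Z) (Finset.mem_univ k))
        rw [he]
        dsimp only
        rw [if_pos ⟨h2, h3, h4, h5⟩]
      have h7 : (1 : ℝ) ≤ ∑ k, e j i k Z := by
        refine le_trans ?_ (Finset.single_le_sum (fun k _ => he0 j i k Z) (Finset.mem_univ k))
        rw [he]
        dsimp only
        rw [if_pos ⟨h3, h2, h4, by linarith⟩]
      dsimp only at h5'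
      linarith
    · rw [if_neg hy]
      have := Finset.sum_nonneg (fun p (_ : p ∈ (univ : Finset (Fin n × Fin n))) => hf0 p)
      linarith
  refine (Ex_mono hl hpt).trans ?_
  rw [Ex_smul, Ex_sum]
  have h1 : ∀ p ∈ (univ : Finset (Fin n × Fin n)),
      Ex (fun _ : Fin N => 1 / (N : ℝ)) (fun Z : Fin n → Fin N => ∑ k, e p.1 p.2 k Z) ≤
      1 / (N : ℝ) := by
    intro p _
    rw [Ex_sum]
    have h2 : ∀ k, Ex (fun _ : Fin N => 1 / (N : ℝ)) (fun Z : Fin n → Fin N =>
        e p.1 p.2 k Z) ≤ Ex (fun _ : Fin N => 1 / (N : ℝ)) (fun Z : Fin n → Fin N =>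
      (1 / (N : ℝ)) * (if (zarr Z p.1 + zarr Z p.2 - 2 * (N * n : ℤ)) / (N : ℤ) =
        (n : ℤ) - 1 - k.val - ((n / 4 : ℕ) : ℤ) then (1 : ℝ) else 0)) := by
      intro k
      rw [he]
      exact zeq_prob hN1 p.1 p.2 k
    refine (Finset.sum_le_sum fun k _ => h2 k).trans ?_
    rw [← Ex_sum]
    have h3 : ∀ Z : Fin n → Fin N, ∑ k : Fin n, (1 / (N : ℝ)) *
        (if (zarr Z p.1 + zarr Z p.2 - 2 * (N * n : ℤ)) / (N : ℤ) =
          (n : ℤ) - 1 - k.val - ((n / 4 : ℕ) : ℤ) then (1 : ℝ) else 0) ≤ 1 / (N : ℝ) := by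
      intro Z
      rw [← Finset.mul_sum, Finset.sum_boole]
      have h4 : (univ.filter (fun k : Fin n =>
          (zarr Z p.1 + zarr Z p.2 - 2 * (N * n : ℤ)) / (N : ℤ) =
          (n : ℤ) - 1 - k.val - ((n / 4 : ℕ) : ℤ))).card ≤ 1 := by
        rw [Finset.card_le_one]
        intro a ha b hb
        have ha' := (Finset.mem_filter.1 ha).2
        have hb' := (Finset.mem_filter.1 hb).2
        apply Fin.ext
        have : (a.val : ℤ) = b.val := by linarith
        exact_mod_cast this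
      have h5 : (((univ.filter (fun k : Fin n =>
          (zarr Z p.1 + zarr Z p.2 - 2 * (N * n : ℤ)) / (N : ℤ) =
          (n : ℤ) - 1 - k.val - ((n / 4 : ℕ) : ℤ))).card : ℕ) : ℝ) ≤ 1 := by exact_mod_cast h4
      calc _ ≤ (1 / (N : ℝ)) * 1 := mul_le_mul_of_nonneg_left h5 (by positivity)
        _ = 1 / (N : ℝ) := mul_one _
    refine (Ex_mono hl h3).trans (le_of_eq ?_)
    exact Ex_const hl1 _
  have h2 := Finset.sum_le_card_nsmul _ _ _ h1
  rw [Finset.card_univ, Fintype.card_prod, Fintype.card_fin, nsmul_eq_mul] at h2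
  have h3 : (((n * n : ℕ) : ℝ)) * (1 / (N : ℝ)) = 1 := by
    have : ((n * n : ℕ) : ℝ) = N := by rw [hN]; push_cast; ring
    rw [this]
    field_simp
  rw [h3] at h2
  linarith

end Pool.Agent.K9h76.WZ
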